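import Pool.Agent.V11210.ZZ.Gen2
import Pool.Agent.V11210.ZZ.AllW

/-!
# Near relations between multiple zeta values of weights at most five

`Z_0, Z_2, Z_3, Z_4, Z_5` are spanned by `1`; `ζ(2)`; `ζ(3)`; `ζ(4)`; `ζ(5), ζ(2)ζ(3)` (Euler), so that the
directness of `Z_0 + … + Z_5` and the conjectured dimension of `Z_5` mean that these six numbers are linearly independent.
Here: at every scale `X` the integer relations with coefficients at most `X` between them which hold up to `c₀ X^(-κ)`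
span a space of dimension at most two, and those without `ζ(5)` are all multiples of one relation.  More generally `ζ(5)`
may be replaced by arbitrary numbers `z_1, …, z_r` (dimension at most `r + 1`), uniformly in these numbers.

For arbitrarily large weights: at every scale the near relations between the numbers `ζ(2)^i` and `ζ(2)^i ζ(3)`, `i ≤ D`, are
the multiples, by polynomials in `ζ(2)`, of one relation, and this relation contains a power `ζ(2)^i`, `i ≥ 2`, or a product
`ζ(2)^i ζ(3)`, `i ≥ 1`, hence a term of weight at least four.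

The proof combines the measure of linear independence of `1, ζ(2), ζ(3)` and the transcendence measure of `π`
(theorems of the repository this team started from) with elimination.
-/

set_option autoImplicit false

namespace Pool.Agent.Results.MP_4d52ff_nt.NearRelationsUpToFive

open Polynomial (aeval)
open scoped Polynomial

/-- `ζ(s) = ∑_{k ≥ 1} k^(-s)`. -/
noncomputable def zeta (s : ℕ) : ℝ := ∑' k : ℕ, 1 / ((k : ℝ) + 1) ^ s

/-- the vectors `((f, a, b, c, q), (e_1, …, e_r))` of integers -/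
abbrev Vec (r : ℕ) : Type := (Fin 5 → ℤ) × (Fin r → ℤ)

/-- `f + a ζ(2) + b ζ(3) + c ζ(4) + q ζ(2) ζ(3) + e_1 z_1 + … + e_r z_r` for `v = ((f, a, b, c, q), e)` -/
noncomputable def value {r : ℕ} (z : Fin r → ℝ) (v : Vec r) : ℝ :=
  v.1 0 + v.1 1 * zeta 2 + v.1 2 * zeta 3 + v.1 3 * zeta 4 + v.1 4 * (zeta 2 * zeta 3) + ∑ i, v.2 i * z i

/-- the near relations at the scale `X`: all coordinates at most `X`, and value smaller than `c / X ^ κ` in absolute value -/
def near {r : ℕ} (c : ℝ) (κ : ℕ) (z : Fin r → ℝ) (X : ℝ) : Set (Vec r) :=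
  {v | (∀ i, |(v.1 i : ℝ)| ≤ X) ∧ (∀ i, |(v.2 i : ℝ)| ≤ X) ∧ |value z v| < c / X ^ κ}

/-- an integer vector as a rational vector -/
def toRat {r : ℕ} (v : Vec r) : (Fin 5 → ℚ) × (Fin r → ℚ) := (fun i => v.1 i, fun i => v.2 i)

/-- the dimension of the rational space spanned by a set of integer vectors -/
noncomputable def dim {r : ℕ} (S : Set (Vec r)) : ℕ := Module.finrank ℚ (Submodule.span ℚ (toRat '' S))

lemma dim_le {r n : ℕ} (S : Set (Vec r))
    (h : ∀ V : Fin (n + 1) → Vec r, (∀ j, V j ∈ S) → ∃ l : Fin (n + 1) → ℤ, l ≠ 0 ∧ ∑ j, l j • V j = 0) : dim S ≤ n := by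
  by_contra hcon
  push Not at hcon
  unfold dim at hcon
  obtain ⟨f, hf, -, hli⟩ := Submodule.exists_fun_fin_finrank_span_eq ℚ (toRat '' S)
  choose g hg hgf using hf
  have hle : n + 1 ≤ Module.finrank ℚ (Submodule.span ℚ (toRat '' S)) := hcon
  obtain ⟨l, hl, hl0⟩ := h (fun j => g (Fin.castLE hle j)) (fun j => hg _)
  have hli' : LinearIndependent ℚ (fun j : Fin (n + 1) => f (Fin.castLE hle j)) :=
    hli.comp _ (Fin.castLE_injective hle)
  rw [Fintype.linearIndependent_iff] at hli'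
  apply hl
  funext j
  have h1 := hli' (fun j => (l j : ℚ)) (by
    have e : ∀ j : Fin (n + 1), ((l j : ℤ) : ℚ) • f (Fin.castLE hle j) = toRat (l j • g (Fin.castLE hle j)) := by
      intro j
      rw [← hgf]
      unfold toRat
      refine Prod.ext ?_ ?_
      · funext i
        simp
      · funext i
        simp
    have hsum : ∀ s : Finset (Fin (n + 1)), ∑ j ∈ s, toRat (l j • g (Fin.castLE hle j)) = toRat (∑ j ∈ s, l j • g (Fin.castLE hle j)) := by
      intro s
      classical
      induction s using Finset.induction_on with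
      | empty => exact Prod.ext (funext fun i => by simp [toRat]) (funext fun i => by simp [toRat])
      | insert a s ha ih =>
        rw [Finset.sum_insert ha, Finset.sum_insert ha, ih]
        unfold toRat
        refine Prod.ext ?_ ?_
        · funext i
          simp
        · funext i
          simp
    rw [Finset.sum_congr rfl (fun j _ => e j), hsum, hl0]
    exact Prod.ext (funext fun i => by simp [toRat]) (funext fun i => by simp [toRat])) j
  have h2 : ((l j : ℤ) : ℚ) = 0 := h1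
  exact_mod_cast h2

/-- **Near relations.** (1) For every `r` there are `c > 0` and `κ` such that for all real numbers `z_1, …, z_r` and
every `X ≥ 1` the near relations between `1, ζ(2), ζ(3), ζ(4), ζ(2)ζ(3), z_1, …, z_r` at the scale `X` span a
space of dimension at most `r + 1`.
(2) There are `c > 0` and `κ` such that for every `X ≥ 1` the near relations `(f, a, b, c, q)` between
`1, ζ(2), ζ(3), ζ(4), ζ(2)ζ(3)` at the scale `X` are proportional, and those different from zero satisfy either `q ≠ 0`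
and `5 f q² - 5 a b q + 2 c b² ≠ 0`, or `q = 0` and `b ≠ 0`, `c ≠ 0`.
(3) For every `D` there are `κ, c > 0` such that for every `H ≥ 1` there are integer polynomials `α₀, β₀` with: if `α, β`,
not both zero, are integer polynomials of degree at most `D` with coefficients at most `H` in absolute value and
`|α(ζ(2)) ζ(3) + β(ζ(2))| < c H ^ (-κ)`, then `(α, β) = g (α₀, β₀)` for an integer polynomial `g`, and `α₀` is not constant or
`β₀` has degree at least two. -/
theorem result :
    (∀ r : ℕ, ∃ c : ℝ, 0 < c ∧ ∃ κ : ℕ, ∀ z : Fin r → ℝ, ∀ X : ℝ, 1 ≤ X → dim (near c κ z X) ≤ r + 1) ∧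
    (∃ c : ℝ, 0 < c ∧ ∃ κ : ℕ, ∀ z : Fin 0 → ℝ, ∀ X : ℝ, 1 ≤ X → ∀ v ∈ near c κ z X,
      (v ≠ 0 → (v.1 4 ≠ 0 ∧ 5 * v.1 0 * v.1 4 ^ 2 - 5 * v.1 1 * v.1 2 * v.1 4 + 2 * v.1 3 * v.1 2 ^ 2 ≠ 0) ∨
        (v.1 4 = 0 ∧ v.1 2 ≠ 0 ∧ v.1 3 ≠ 0)) ∧
      ∀ w ∈ near c κ z X, ∀ i j, v.1 i * w.1 j = v.1 j * w.1 i) ∧
    ∀ D : ℕ, ∃ κ c : ℝ, 0 < κ ∧ 0 < c ∧ ∀ H : ℝ, 1 ≤ H → ∃ α₀ β₀ : ℤ[X],
      ∀ α β : ℤ[X], α.natDegree ≤ D → β.natDegree ≤ D → (∀ i, |(α.coeff i : ℝ)| ≤ H) → (∀ i, |(β.coeff i : ℝ)| ≤ H) →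
        (α ≠ 0 ∨ β ≠ 0) → |aeval (zeta 2) α * zeta 3 + aeval (zeta 2) β| < c * H ^ (-κ) →
        (∃ g : ℤ[X], α = g * α₀ ∧ β = g * β₀) ∧ (1 ≤ α₀.natDegree ∨ 2 ≤ β₀.natDegree) := by
  refine ⟨fun r => ?_, Pool.Agent.V11210.ZZ.W.base, Pool.Agent.V11210.ZZ.allw⟩
  obtain ⟨c, hc, κ, h⟩ := Pool.Agent.V11210.ZZ.W.gen r
  exact ⟨c, hc, κ, fun z X hX => dim_le _ fun V hV => h z X hX V hV⟩

end Pool.Agent.Results.MP_4d52ff_nt.NearRelationsUpToFive
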