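import Pool.Agent.V11133.QP.Main

/-!
# Quadratic near relations between `ζ(3)` and `π ^ 4`

At every scale `H` the integer polynomials `P` of total degree at most `2` in two variables, of height at most `H`, with
`|P(π ^ 4, ζ(3))| < c H ^ (-κ)` are rational multiples of one polynomial, and if there is such a `P ≠ 0` then it divides (over
the rational numbers) all integer polynomials `Q` of bounded degree and of height at most `H` with
`|Q(π ^ 4, ζ(3))| < c H ^ (-κ)`.  The quadratic near relations are sparse.  For instance, if `ζ(3)` nearly satisfies a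
quadratic equation `P(Y) = 0` with coefficients of size at most `H`, then `π ^ 4` and `ζ(3)` nearly satisfy no other relation
of this size which is not a multiple of `P(Y)`.

The six numbers `1, ζ(3), π ^ 4, ζ(3) ^ 2, π ^ 4 ζ(3), π ^ 8` are rational combinations of multiple zeta values of the
pairwise different weights `0, 3, 4, 6, 7, 8`; if the sum of the weight spaces is direct, they satisfy no rational linear
relation. The theorem says that at every scale at most one relation between them nearly holds.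

This is the companion for `π ^ 4` of the hand-in `MP_48b3e2_nt.NearRelationsZetaTwo` (about `ζ(2)`, that is `π ^ 2`), whose
method is used; neither contains the other. The input here is the measure of linear independence of `1, ζ(3), π ^ 4` with
exponent `145` (`MP_e48a95_nt.MeasureZetaThreePiFourSharp`), with the transcendence measures of `π` of the library and the
theorem that the near relations of bounded degree between such a number and an arbitrary number have a common factor at every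
scale (`MP_a89d6d_nt.NearAlgebraicRelations`).
-/

set_option autoImplicit false

namespace Pool.Agent.Results.MP_4d52ff_nt.QuadraticZetaThreePiFour

open Polynomial

/-- The number `ζ(3)`. -/
noncomputable def zetaThree : ℝ := ∑' n : ℕ, 1 / ((n : ℝ) + 1) ^ 3

/-- The value `P(π ^ 4, ζ(3))` of a polynomial `P` in `Y` whose coefficients are polynomials in `X`. -/
noncomputable def value (P : ℤ[X][X]) : ℝ := (P.map (aeval (Real.pi ^ 4)).toRingHom).eval zetaThree

/-- The polynomial `v 0 + v 1 X + v 2 Y + v 3 X² + v 4 X Y + v 5 Y²`. -/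
noncomputable def quad (v : Fin 6 → ℤ) : ℤ[X][X] :=
  C (C (v 0) + C (v 1) * X + C (v 3) * X ^ 2) + C (C (v 2) + C (v 4) * X) * X + C (C (v 5)) * X ^ 2

/-- All coefficients have absolute value at most `H`. -/
def HeightLe (H : ℝ) (Q : ℤ[X][X]) : Prop := ∀ i j, |((Q.coeff j).coeff i : ℝ)| ≤ H

/-- `v` and `w` are linearly independent over `ℤ`. -/
def Independent (v w : Fin 6 → ℤ) : Prop := ∀ a b : ℤ, a • v = b • w → a = 0 ∧ b = 0

lemma core2 : ∃ κ c : ℝ, 0 < κ ∧ 0 < c ∧ ∀ H : ℝ, 1 ≤ H → ∀ v w : Fin 6 → ℤ,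
      (∀ i, |(v i : ℝ)| ≤ H) → (∀ i, |(w i : ℝ)| ≤ H) → |value (quad v)| < c * H ^ (-κ) →
      |value (quad w)| < c * H ^ (-κ) → ¬ Independent v w := by
  obtain ⟨κ, c, hκ, hc, h⟩ := Pool.Agent.V11133.QP.core 2
  refine ⟨κ, c, hκ, hc, fun H hH v w hv hw h1 h2 hli => ?_⟩
  obtain ⟨F, hF, -, h3⟩ := h H hH
  have hv0 : v ≠ 0 := by
    rintro rfl
    exact one_ne_zero (hli 1 0 (by simp)).1
  have hw0 : w ≠ 0 := by
    rintro rfl
    exact one_ne_zero (hli 0 1 (by simp)).2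
  obtain ⟨a, ha, e1⟩ := h3 (quad v) (Pool.Agent.H267.QZ.quad_ne v hv0) (Pool.Agent.H267.QZ.quad_tot v)
    (Pool.Agent.H267.QZ.quad_height v H (by linarith) hv) h1
  obtain ⟨b, hb, e2⟩ := h3 (quad w) (Pool.Agent.H267.QZ.quad_ne w hw0) (Pool.Agent.H267.QZ.quad_tot w)
    (Pool.Agent.H267.QZ.quad_height w H (by linarith) hw) h2
  have e3 : b • v = a • w := Pool.Agent.H267.QZ.quad_smul b v w a (by
    change C (C b) * quad v = C (C a) * quad w
    rw [e1, e2]
    ring)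
  exact hb (hli b a e3).1

lemma sparse (κ c : ℝ) (hκ : 0 < κ) (hc : 0 < c) (h : ∀ H : ℝ, 1 ≤ H → ∀ v w : Fin 6 → ℤ,
      (∀ i, |(v i : ℝ)| ≤ H) → (∀ i, |(w i : ℝ)| ≤ H) → |value (quad v)| < c * H ^ (-κ) →
      |value (quad w)| < c * H ^ (-κ) → ¬ Independent v w) (ω ρ : ℝ) (hρ : 1 < ρ) (hω : ρ * κ < ω) :
    ∃ C : ℝ, ∀ S : Set (Fin 6 → ℤ), (∀ v ∈ S, ∀ w ∈ S, v ≠ w → Independent v w) →
      (∀ v ∈ S, |value (quad v)| ≤ ‖v‖ ^ (-ω)) → ∀ X : ℝ, 3 ≤ X → {v ∈ S | ‖v‖ ≤ X}.Finite ∧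
        ({v ∈ S | ‖v‖ ≤ X}.ncard : ℝ) ≤ Real.log (Real.log X) / Real.log ρ + C := by
  have hω0 : 0 < ω := by nlinarith
  obtain ⟨C, hC⟩ := Pool.Agent.TH550.NRZ.count_unif (α := Fin 6 → ℤ) (fun P => ‖P‖)
    (fun X => by
      have h1 : {x : Fin 6 → ℤ | ‖x‖ ≤ X} = Metric.closedBall 0 X := by
        ext x
        simp
      rw [h1]
      exact isCompact_iff_finite.1 (isCompact_closedBall 0 X))
    (c ^ (1 / κ)) (ω / κ) ρ (by positivity) hρ (by rwa [lt_div_iff₀ hκ])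
  refine ⟨C, fun S hS1 hS2 => hC S ?_⟩
  intro v hv w hw hne hle h1
  obtain ⟨H, hH⟩ : ∃ H : ℝ, H = ‖v‖ := ⟨_, rfl⟩
  obtain ⟨K, hK⟩ : ∃ K : ℝ, K = ‖w‖ := ⟨_, rfl⟩
  have e1 := hS2 v hv
  have e2 := hS2 w hw
  have n1 : ∀ i, |(v i : ℝ)| ≤ H := fun i => by rw [hH]; exact norm_le_pi_norm v i
  have n2 : ∀ i, |(w i : ℝ)| ≤ K := fun i => by rw [hK]; exact norm_le_pi_norm w i
  rw [← hH] at h1 hle e1 ⊢
  rw [← hK] at hle e2 ⊢
  have hH0 : 0 < H := by linarith
  have hK0 : 0 < K := by linarith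
  have hK1 : 1 ≤ K := h1.trans hle
  have e3 : K ^ (-ω) ≤ H ^ (-ω) := Real.rpow_le_rpow_of_nonpos hH0 hle (by linarith)
  have e4 : c * K ^ (-κ) ≤ H ^ (-ω) := by
    by_contra hcon
    push Not at hcon
    exact h K hK1 v w (fun i => (n1 i).trans hle) n2 (lt_of_le_of_lt e1 hcon)
      (lt_of_le_of_lt (e2.trans e3) hcon) (hS1 v hv w hw hne)
  have e5 : c * H ^ ω ≤ K ^ κ := by
    rw [Real.rpow_neg hK0.le, Real.rpow_neg hH0.le, ← div_eq_mul_inv, div_le_iff₀ (by positivity)] at e4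
    have e6 : 0 < H ^ ω := by positivity
    calc c * H ^ ω ≤ ((H ^ ω)⁻¹ * K ^ κ) * H ^ ω := mul_le_mul_of_nonneg_right e4 e6.le
      _ = K ^ κ := by field_simp
  have e7 := Real.rpow_le_rpow (by positivity) e5 (show (0 : ℝ) ≤ 1 / κ by positivity)
  rw [Real.mul_rpow hc.le (by positivity), ← Real.rpow_mul hH0.le, ← Real.rpow_mul hK0.le] at e7
  have e8 : κ * (1 / κ) = 1 := by field_simp
  have e9 : ω * (1 / κ) = ω / κ := by ring
  rw [e8, e9, Real.rpow_one] at e7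
  exact e7

/-- **Quadratic near relations between `ζ(3)` and `π ^ 4`.**

1. For every `D` there are `κ, c > 0` such that for every `H ≥ 1`: if `P ≠ 0` is an integer polynomial of total degree at
most `2` and height at most `H` with `|P(π ^ 4, ζ(3))| < c H ^ (-κ)`, then `P` divides `a Q`, for some integer `a ≠ 0`, for
every integer polynomial `Q` of degree at most `D` in each variable and height at most `H` with
`|Q(π ^ 4, ζ(3))| < c H ^ (-κ)`.
2. There are `κ, c > 0` such that (a) for every `H ≥ 1` two integer polynomials of total degree at most `2` and height at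
most `H` with `|P(π ^ 4, ζ(3))| < c H ^ (-κ)` are proportional; (b) if `ρ > 1` and `ω > ρ κ`, there is `C` such that in every
family of pairwise independent integer polynomials `P` of total degree at most `2` with `|P(π ^ 4, ζ(3))| ≤ ‖P‖ ^ (-ω)` at
most `log log X / log ρ + C` have height at most `X`. -/
theorem result :
    (∀ D : ℕ, ∃ κ c : ℝ, 0 < κ ∧ 0 < c ∧ ∀ H : ℝ, 1 ≤ H → ∀ v : Fin 6 → ℤ, v ≠ 0 →
      (∀ i, |(v i : ℝ)| ≤ H) → |value (quad v)| < c * H ^ (-κ) →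
      ∀ Q : ℤ[X][X], Q.natDegree ≤ D → (∀ j, (Q.coeff j).natDegree ≤ D) → HeightLe H Q →
        |value Q| < c * H ^ (-κ) → ∃ a : ℤ, a ≠ 0 ∧ quad v ∣ C (C a) * Q) ∧
    (∃ κ c : ℝ, 0 < κ ∧ 0 < c ∧
      (∀ H : ℝ, 1 ≤ H → ∀ v w : Fin 6 → ℤ, (∀ i, |(v i : ℝ)| ≤ H) → (∀ i, |(w i : ℝ)| ≤ H) →
        |value (quad v)| < c * H ^ (-κ) → |value (quad w)| < c * H ^ (-κ) → ¬ Independent v w) ∧
      ∀ ω ρ : ℝ, 1 < ρ → ρ * κ < ω → ∃ C : ℝ, ∀ S : Set (Fin 6 → ℤ),
        (∀ v ∈ S, ∀ w ∈ S, v ≠ w → Independent v w) → (∀ v ∈ S, |value (quad v)| ≤ ‖v‖ ^ (-ω)) →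
        ∀ X : ℝ, 3 ≤ X → {v ∈ S | ‖v‖ ≤ X}.Finite ∧
          ({v ∈ S | ‖v‖ ≤ X}.ncard : ℝ) ≤ Real.log (Real.log X) / Real.log ρ + C) := by
  refine ⟨fun D => ?_, ?_⟩
  · obtain ⟨κ, c, hκ, hc, h⟩ := Pool.Agent.V11133.QP.core D
    refine ⟨κ, c, hκ, hc, fun H hH v hv0 hv h1 Q g1 g2 g3 g4 => ?_⟩
    obtain ⟨F, -, h2, h3⟩ := h H hH
    obtain ⟨a, ha, e1⟩ := h3 (quad v) (Pool.Agent.H267.QZ.quad_ne v hv0)
      (Pool.Agent.H267.QZ.quad_tot v) (Pool.Agent.H267.QZ.quad_height v H (by linarith) hv) h1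
    obtain ⟨B, e2⟩ := h2 Q g1 g2 g3 g4
    refine ⟨a, ha, B, ?_⟩
    rw [e1, e2]
    ring
  · obtain ⟨κ, c, hκ, hc, h⟩ := core2
    exact ⟨κ, c, hκ, hc, h, fun ω ρ hρ hω => sparse κ c hκ hc h ω ρ hρ hω⟩

end Pool.Agent.Results.MP_4d52ff_nt.QuadraticZetaThreePiFour
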