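import Pool.Agent.H267.QZ.Weight2

/-!
# Relations between `ζ(2)` and `ζ(3)` and the weight

Let `Z_j` be the `ℚ`-span of the multiple zeta values of weight `j`. Give `X` the weight `2` and `Y` the weight `3`.

1. `Z_0 + Z_1 + ... + Z_N` has dimension at least `⌊2 N / 3⌋ + 1` over `ℚ`; already the products `ζ(2) ^ i ζ(3) ^ j` with
`2 i + 3 j ≤ N` span a space of this dimension.
2. If one nonzero weighted homogeneous integer polynomial vanishes at `(ζ(2), ζ(3))`, then the homogeneous components of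
every integer polynomial vanishing at `(ζ(2), ζ(3))` vanish there. So of the two halves of the conjecture for `ℚ[ζ(2), ζ(3)]`
(directness, and independence in every weight) at most one fails.
3. The same at every scale: for every `N` there are `κ, c > 0` such that for every `H ≥ 1` at most
`#{(i, j) : 2 i + 3 j + 4 ≤ N}` linearly independent integer polynomials of weight at most `N` and height at most `H` have
`|P(ζ(2), ζ(3))| < c H ^ (-κ)`; and if one of these polynomials is homogeneous and not zero, then the homogeneous components of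
all of them are divisible by one irreducible homogeneous polynomial of weight at least `4`.

The proof uses the library's measure of linear independence of `1, ζ(2), ζ(3)` and its transcendence measures of `π`
(`Pool/Agent/H267/QZ`), and the weight grading: the cofactor of a polynomial of weight `≥ 4` in one of weight `≤ N` has weight
`≤ N - 4`.
-/

set_option autoImplicit false

namespace Pool.Agent.Results.MP_4d52ff_nt.WeightFiltration

open Polynomial

/-- The `ℚ`-span of the multiple zeta values of weight `j`. -/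
noncomputable def Z (j : ℕ) : Submodule ℚ ℝ :=
  Submodule.span ℚ
    {x : ℝ | ∃ t : ℕ, ∃ k : Fin t → ℕ,
      (∀ i, 1 ≤ k i) ∧ (∀ h : 0 < t, 2 ≤ k ⟨0, h⟩) ∧ (∑ i, k i) = j ∧
      x = ∑' n : {n : Fin t → ℕ // StrictAnti n ∧ ∀ i, 1 ≤ n i},
            ∏ i, (((n.1 i : ℕ) : ℝ) ^ (k i))⁻¹}

/-- The number `ζ(k)`. -/
noncomputable def zeta (k : ℕ) : ℝ := ∑' n : ℕ, 1 / ((n : ℝ) + 1) ^ k

/-- The `ℚ`-span of the products `ζ(2) ^ i ζ(3) ^ j` with `2 i + 3 j ≤ N`. -/
noncomputable def Products (N : ℕ) : Submodule ℚ ℝ :=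
  Submodule.span ℚ {x | ∃ i j : ℕ, 2 * i + 3 * j ≤ N ∧ x = zeta 2 ^ i * zeta 3 ^ j}

/-- The value `P(ζ(2), ζ(3))` of a polynomial `P` in `Y` whose coefficients are polynomials in `X`. -/
noncomputable def value (P : ℤ[X][X]) : ℝ := (P.map (aeval (zeta 2)).toRingHom).eval (zeta 3)

/-- The weight is at most `N`: only the monomials `X ^ i Y ^ j` with `2 i + 3 j ≤ N` occur. -/
def WeightLe (N : ℕ) (P : ℤ[X][X]) : Prop := ∀ i j, N < 2 * i + 3 * j → (P.coeff j).coeff i = 0

/-- Weighted homogeneous of weight `k`: only the monomials `X ^ i Y ^ j` with `2 i + 3 j = k` occur. -/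
def Homogeneous (k : ℕ) (P : ℤ[X][X]) : Prop := ∀ i j, 2 * i + 3 * j ≠ k → (P.coeff j).coeff i = 0

/-- `R` is the homogeneous component of weight `k` of `P`. -/
def IsComponent (k : ℕ) (P R : ℤ[X][X]) : Prop :=
  ∀ i j, (R.coeff j).coeff i = if 2 * i + 3 * j = k then (P.coeff j).coeff i else 0

/-- All coefficients have absolute value at most `H`. -/
def HeightLe (H : ℝ) (P : ℤ[X][X]) : Prop := ∀ i j, |((P.coeff j).coeff i : ℝ)| ≤ H

/-- The number of pairs `(i, j)` with `2 i + 3 j + 4 ≤ N`. -/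
def count (N : ℕ) : ℕ :=
  ((Finset.range (N + 1) ×ˢ Finset.range (N + 1)).filter fun s => 2 * s.1 + 3 * s.2 + 4 ≤ N).card

lemma count_eq (N : ℕ) : count N = (Pool.Agent.H267.QZ.wpairs (N - 3)).card := by
  rw [count]
  congr 1
  ext ⟨i, j⟩
  rw [Pool.Agent.H267.QZ.mem_wpairs]
  simp only [Finset.mem_filter, Finset.mem_product, Finset.mem_range]
  omega

lemma products_le (N : ℕ) : Products N ≤ ⨆ j ∈ Finset.range (N + 1), Z j := by
  rw [Products, Submodule.span_le]
  rintro x ⟨i, j, hij, rfl⟩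
  have h2 : zeta 2 ^ i ∈ Pool.Agent.H447R2.MZ.Zs (2 * i) :=
    Pool.Agent.H447R2.MZ.pow_mem 2 _ (Pool.Agent.H447R2.MZ.zeta_mem 2 le_rfl) i
  have h3 : zeta 3 ^ j ∈ Pool.Agent.H447R2.MZ.Zs (3 * j) :=
    Pool.Agent.H447R2.MZ.pow_mem 3 _ (Pool.Agent.H447R2.MZ.zeta_mem 3 (by norm_num)) j
  have h4 : zeta 2 ^ i * zeta 3 ^ j ∈ Z (2 * i + 3 * j) := Pool.Agent.H447R2.MZ.mul_mem _ _ _ _ h2 h3
  exact Submodule.mem_iSup_of_mem _ (Submodule.mem_iSup_of_mem (Finset.mem_range.2 (by omega)) h4)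

/-- **Relations between `ζ(2)` and `ζ(3)` and the weight.**

1. For every `N` the products `ζ(2) ^ i ζ(3) ^ j` with `2 i + 3 j ≤ N` span a space of dimension at least `⌊2 N / 3⌋ + 1` in
`Z_0 + ... + Z_N`; so `dim (Z_0 + ... + Z_N) ≥ ⌊2 N / 3⌋ + 1`.
2. If some weighted homogeneous `P ≠ 0` vanishes at `(ζ(2), ζ(3))`, then the components of every `Q` vanishing there vanish.
3. For every `N` there are `κ, c > 0` such that for every `H ≥ 1`: at most `#{(i, j) : 2 i + 3 j + 4 ≤ N}` linearly independent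
polynomials `P` of weight at most `N` and height at most `H` have `|P(ζ(2), ζ(3))| < c H ^ (-κ)`; and if one such `P ≠ 0` is
homogeneous, then one irreducible homogeneous `F` of weight at least `4` divides the components of all such polynomials. -/
theorem result :
    (∀ N : ℕ, ((2 * N / 3 + 1 : ℕ) : Cardinal) ≤ Module.rank ℚ (Products N) ∧
      Products N ≤ ⨆ j ∈ Finset.range (N + 1), Z j) ∧
    (∀ N : ℕ, ((2 * N / 3 + 1 : ℕ) : Cardinal) ≤ Module.rank ℚ ↥(⨆ j ∈ Finset.range (N + 1), Z j)) ∧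
    ((∃ (k : ℕ) (P : ℤ[X][X]), P ≠ 0 ∧ Homogeneous k P ∧ value P = 0) →
      ∀ Q : ℤ[X][X], value Q = 0 → ∀ (k : ℕ) (R : ℤ[X][X]), IsComponent k Q R → value R = 0) ∧
    (∀ N : ℕ, ∃ κ c : ℝ, 0 < κ ∧ 0 < c ∧ ∀ H : ℝ, 1 ≤ H →
      (∀ (n : ℕ) (P : Fin n → ℤ[X][X]), LinearIndependent ℤ P →
        (∀ k, WeightLe N (P k) ∧ HeightLe H (P k) ∧ |value (P k)| < c * H ^ (-κ)) → n ≤ count N) ∧
      ((∃ (k : ℕ) (P : ℤ[X][X]), P ≠ 0 ∧ k ≤ N ∧ Homogeneous k P ∧ HeightLe H P ∧ |value P| < c * H ^ (-κ)) →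
        ∃ (f : ℕ) (F : ℤ[X][X]), Irreducible F ∧ 0 < F.natDegree ∧ 4 ≤ f ∧ Homogeneous f F ∧
          ∀ Q : ℤ[X][X], WeightLe N Q → HeightLe H Q → |value Q| < c * H ^ (-κ) →
            ∀ (k : ℕ) (R : ℤ[X][X]), IsComponent k Q R → F ∣ R)) := by
  refine ⟨fun N => ⟨Pool.Agent.H267.QZ.dim_bound N, products_le N⟩, fun N => ?_, ?_, fun N => ?_⟩
  · exact (Pool.Agent.H267.QZ.dim_bound N).trans (Submodule.rank_mono (products_le N))
  · rintro ⟨k, P, hP, hom, hv⟩ Q hQ k' R hR
    exact Pool.Agent.H267.QZ.exact_alt Q hQ k' R hR k P hP hom hv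
  · obtain ⟨κ, c, hκ, hc, h⟩ := Pool.Agent.H267.QZ.wcore N
    refine ⟨κ, c, hκ, hc, fun H hH => ⟨fun n P hP hk => ?_, fun hex => ?_⟩⟩
    · rw [count_eq]
      exact (h H hH).1 n P hP hk
    · obtain ⟨f, F, h1, h2, h3, h4, h5⟩ := (h H hH).2 hex
      refine ⟨f, F, h1, h2, ?_, h4, h5⟩
      by_contra hf
      apply h3
      intro i j hij
      exact h4 i j (by omega)

end Pool.Agent.Results.MP_4d52ff_nt.WeightFiltration
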